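import Pool.Agent.Work.MP_0fc146_gt_h31.Interface

/-!
# The Cayley tree of `G`: separation, and paths with bounded steps
-/

set_option autoImplicit false

noncomputable section

namespace Pool.Agent.CircleShift

open FreeGroup

/-! ## Reduced products -/

theorem isReduced_append_iff {u v : List (Fin 4 × Bool)} : IsReduced (u ++ v) ↔
    IsReduced u ∧ IsReduced v ∧ ∀ x ∈ u.getLast?, ∀ y ∈ v.head?, x.1 = y.1 → x.2 = y.2 := by
  unfold FreeGroup.IsReduced
  exact List.isChain_append

theorem isRed_sub {u v : List (Fin 4 × Bool)} (h : FreeGroup.IsReduced v) (hs : u <:+: v) :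
    FreeGroup.IsReduced u := by
  obtain ⟨s, t, rfl⟩ := hs
  exact List.IsChain.right_of_append (List.IsChain.left_of_append h)

theorem toWord_mul_of_isReduced {g h : G} (H : IsReduced (g.toWord ++ h.toWord)) :
    (g * h).toWord = g.toWord ++ h.toWord := by
  rw [toWord_mul, H.reduce_eq]

theorem norm_mul_eq_iff (g h : G) : (g * h).norm = g.norm + h.norm ↔
    IsReduced (g.toWord ++ h.toWord) := by
  constructor
  · intro H
    have h1 : Red (g.toWord ++ h.toWord) (reduce (g.toWord ++ h.toWord)) := reduce.red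
    have h2 : reduce (g.toWord ++ h.toWord) = g.toWord ++ h.toWord := by
      apply h1.sublist.eq_of_length
      have h3 : (g * h).toWord.length = g.toWord.length + h.toWord.length := H
      rw [toWord_mul] at h3
      rw [h3, List.length_append]
    exact IsReduced.of_reduce_eq h2
  · intro H
    change (g * h).toWord.length = g.toWord.length + h.toWord.length
    rw [toWord_mul_of_isReduced H, List.length_append]

theorem getLast?_invRev (u : List (Fin 4 × Bool)) :
    (invRev u).getLast? = u.head?.map (fun x => (x.1, !x.2)) := by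
  unfold invRev
  rw [List.getLast?_reverse, List.head?_map]

/-! ## First letters and separation -/

/-- The first letter of the geodesic from `w` to `v`. -/
def fl (w v : G) : Option (Fin 4 × Bool) := (w⁻¹ * v).toWord.head?

/-- `w` is on the geodesic from `a` to `b`. -/
def Sep (w a b : G) : Prop := a = w ∨ b = w ∨ fl w a ≠ fl w b

theorem fl_mul_left (k w v : G) : fl (k * w) (k * v) = fl w v := by
  unfold fl
  congr 2
  group

theorem sep_mul_left {k w a b : G} : Sep (k * w) (k * a) (k * b) ↔ Sep w a b := by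
  unfold Sep
  rw [fl_mul_left, fl_mul_left, mul_right_inj, mul_right_inj]

theorem Sep.symm {w a b : G} (h : Sep w a b) : Sep w b a := by
  rcases h with h | h | h
  · exact Or.inr (Or.inl h)
  · exact Or.inl h
  · exact Or.inr (Or.inr h.symm)

theorem Sep.cases {w a b : G} (h : Sep w a b) (p : G) : Sep w a p ∨ Sep w p b := by
  unfold Sep at *
  by_cases h1 : fl w a = fl w p
  · rcases h with h | h | h
    · exact Or.inl (Or.inl h)
    · exact Or.inr (Or.inr (Or.inl h))
    · right; right; right
      rwa [← h1]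
  · exact Or.inl (Or.inr (Or.inr h1))

theorem sep_iff (w a b : G) : Sep w a b ↔ IsReduced ((a⁻¹ * w).toWord ++ (w⁻¹ * b).toWord) := by
  have ha : (a⁻¹ * w).toWord = invRev (w⁻¹ * a).toWord := by
    rw [← toWord_inv]; congr 1; group
  have e1 : a = w ↔ (w⁻¹ * a).toWord = [] := by
    rw [toWord_eq_nil_iff, inv_mul_eq_one, eq_comm]
  have e2 : b = w ↔ (w⁻¹ * b).toWord = [] := by
    rw [toWord_eq_nil_iff, inv_mul_eq_one, eq_comm]
  rw [isReduced_append_iff, ha]
  unfold Sep fl
  rw [e1, e2]
  constructor
  · intro h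
    refine ⟨ha ▸ isReduced_toWord, isReduced_toWord, ?_⟩
    intro x hx y hy hxy
    rw [getLast?_invRev] at hx
    rcases h with h | h | h
    · rw [h] at hx; simp at hx
    · rw [h] at hy; simp at hy
    · cases hc : (w⁻¹ * a).toWord.head? with
      | none => rw [hc] at hx; simp at hx
      | some z =>
        rw [hc] at hx h
        have hy' : (w⁻¹ * b).toWord.head? = some y := hy
        rw [hy'] at h
        have hx' : (z.1, !z.2) = x := by simpa using hx
        subst hx'
        have h3 : z ≠ y := fun h3 => h (by rw [h3])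
        have h4 : z.2 ≠ y.2 := fun h4 => h3 (Prod.ext hxy h4)
        have hxy' : z.1 = y.1 := hxy
        change (!z.2) = y.2
        cases hz : z.2 <;> cases hy2 : y.2 <;> simp_all
  · rintro ⟨-, -, h⟩
    by_contra hcon
    push Not at hcon
    obtain ⟨h1, h2, h3⟩ := hcon
    cases hc : (w⁻¹ * a).toWord.head? with
    | none => exact h1 (List.head?_eq_none_iff.1 hc)
    | some z =>
      rw [hc] at h3
      have h4 := h (z.1, !z.2) (by rw [getLast?_invRev, hc]; simp) z h3.symm rfl
      simp at h4


theorem sep_dist {w a b : G} (h : Sep w a b) :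
    (a⁻¹ * b).norm = (a⁻¹ * w).norm + (w⁻¹ * b).norm := by
  have h1 := (norm_mul_eq_iff (a⁻¹ * w) (w⁻¹ * b)).2 ((sep_iff w a b).1 h)
  rw [← h1]
  congr 1
  group

theorem sep_of_dist {w a b : G} (h : (a⁻¹ * b).norm = (a⁻¹ * w).norm + (w⁻¹ * b).norm) :
    Sep w a b := by
  rw [sep_iff, ← norm_mul_eq_iff, ← h]
  congr 1
  group

theorem sep_mul {g h : G} (H : (g * h).norm = g.norm + h.norm) : Sep g 1 (g * h) := by
  apply sep_of_dist
  simpa using H

/-- Two adjacent vertices different from `w` are in the same direction. -/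
theorem fl_step {w v : G} {x : Fin 4 × Bool} (h1 : v ≠ w) (h2 : v * mk [x] ≠ w) :
    fl w v = fl w (v * mk [x]) := by
  unfold fl
  have e1 : w⁻¹ * (v * mk [x]) = (w⁻¹ * v) * mk [x] := by group
  rw [e1]
  have h3 : (w⁻¹ * v) ≠ 1 := fun h => h1 (by rw [inv_mul_eq_one] at h; exact h.symm)
  have h4 : (w⁻¹ * v) * mk [x] ≠ 1 := fun h => h2 (by
    rw [← e1, inv_mul_eq_one] at h; exact h.symm)
  generalize w⁻¹ * v = g at h3 h4
  have hx : (mk [x] : G).toWord = [x] := by
    rw [toWord_mk]; exact IsReduced.singleton.reduce_eq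
  by_cases H : IsReduced (g.toWord ++ [x])
  · rw [toWord_mul_of_isReduced (by rw [hx]; exact H), hx]
    have h5 : g.toWord ≠ [] := fun h => h3 (toWord_eq_nil_iff.1 h)
    rw [List.head?_append_of_ne_nil _ h5]
  · -- the last letter is cancelled
    rw [isReduced_append_iff] at H
    have h5 : ∃ z ∈ g.toWord.getLast?, z.1 = x.1 ∧ z.2 ≠ x.2 := by
      by_contra hcon
      push Not at hcon
      apply H
      refine ⟨isReduced_toWord, IsReduced.singleton, ?_⟩
      intro z hz y hy hzy
      have hy' : x = y := by simpa using hy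
      subst hy'
      exact hcon z hz hzy
    obtain ⟨z, hz, hz1, hz2⟩ := h5
    obtain ⟨l, hl⟩ : ∃ l, g.toWord = l ++ [z] := List.getLast?_eq_some_iff.1 hz
    have h6 : g = mk l * mk [z] := by
      rw [mul_mk, ← hl, mk_toWord]
    have h7 : (mk [z] : G) * mk [x] = 1 := by
      have h8 : x = (z.1, !z.2) := by
        apply Prod.ext
        · exact hz1.symm
        · change x.2 = !z.2
          cases h9 : x.2 <;> cases h10 : z.2 <;> simp_all
      rw [h8, mul_mk, one_eq_mk]
      exact reduce.exact (by simp [reduce])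
    have h8 : g * mk [x] = mk l := by
      rw [h6, mul_assoc, h7, mul_one]
    have hlr : IsReduced l := by
      have h9 : IsReduced (l ++ [z]) := by rw [← hl]; exact isReduced_toWord
      exact isRed_sub h9 ⟨[], [z], by simp⟩
    have hlw : (mk l : G).toWord = l := by rw [toWord_mk]; exact hlr.reduce_eq
    rw [h8, hlw, hl]
    have h9 : l ≠ [] := by
      rintro rfl
      apply h4
      rw [h8, one_eq_mk]
    rw [List.head?_append_of_ne_nil _ h9]


theorem fl_step' {w v v' : G} (x : Fin 4 × Bool) (hv : v' = v * mk [x]) (h1 : v ≠ w)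
    (h2 : v' ≠ w) : fl w v = fl w v' := by
  subst hv
  exact fl_step h1 h2

/-! ## Paths with bounded steps -/

theorem exists_sep_step (p : ℕ → G) (w : G) : ∀ n, Sep w (p 0) (p n) →
    p 0 = w ∨ ∃ i < n, Sep w (p i) (p (i + 1)) := by
  intro n
  induction n with
  | zero =>
    rintro (h | h | h)
    · exact Or.inl h
    · exact Or.inl h
    · exact absurd rfl h
  | succ n ih =>
    intro h
    rcases h.cases (p n) with h1 | h1
    · rcases ih h1 with h2 | ⟨i, hi, h2⟩
      · exact Or.inl h2
      · exact Or.inr ⟨i, by omega, h2⟩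
    · exact Or.inr ⟨n, by omega, h1⟩

/-- A path with steps of length at most `N` passes near every vertex which separates its end
points. -/
theorem tree_path (N : ℕ) (p : ℕ → G) (n : ℕ) (hp : ∀ i < n, ((p i)⁻¹ * p (i + 1)).norm ≤ N) (w : G)
    (hw : Sep w (p 0) (p n)) : ∃ i ≤ n, (w⁻¹ * p i).norm ≤ N := by
  rcases exists_sep_step p w n hw with h | ⟨i, hi, h⟩
  · exact ⟨0, Nat.zero_le n, by rw [h]; simp⟩
  · refine ⟨i, hi.le, ?_⟩
    have h1 := sep_dist h
    have h2 := hp i hi
    have h3 : (w⁻¹ * p i).norm = ((p i)⁻¹ * w).norm := by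
      rw [← norm_inv_eq]; congr 1; group
    omega

/-- The vertices on the reduced word. -/
theorem sep_prefix (g : G) (l r : List (Fin 4 × Bool)) (h : g.toWord = l ++ r) :
    Sep (mk l) 1 g := by
  have hr : IsReduced (l ++ r) := by rw [← h]; exact isReduced_toWord
  have hl : (mk l : G).toWord = l := by
    rw [toWord_mk]; exact (isRed_sub hr ⟨[], r, by simp⟩ : IsReduced l).reduce_eq
  have hr' : (mk r : G).toWord = r := by
    rw [toWord_mk]; exact (isRed_sub hr ⟨l, [], by simp⟩ : IsReduced r).reduce_eq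
  have hg : g = mk l * mk r := by rw [mul_mk, ← h, mk_toWord]
  rw [hg]
  apply sep_mul
  rw [norm_mul_eq_iff, hl, hr']
  exact hr

/-- The form of the lemma used for words: every initial vertex `x` of the reduced word of
`p_0⁻¹ p_n` is near some `p_i`. -/
theorem tree_path_prefix (N : ℕ) (p : ℕ → G) (n : ℕ)
    (hp : ∀ i < n, ((p i)⁻¹ * p (i + 1)).norm ≤ N) (l r : List (Fin 4 × Bool))
    (h : ((p 0)⁻¹ * p n).toWord = l ++ r) : ∃ i ≤ n, ((p 0 * mk l)⁻¹ * p i).norm ≤ N := by
  apply tree_path N p n hp
  have h1 := sep_prefix _ l r h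
  have h2 : Sep (p 0 * mk l) (p 0 * 1) (p 0 * ((p 0)⁻¹ * p n)) := sep_mul_left.2 h1
  rwa [mul_one, mul_inv_cancel_left] at h2

/-! ## Lipschitz constants of homomorphisms -/

theorem norm_le_of_letters (α : G →* G) (N : ℕ) (hN : ∀ x : Fin 4 × Bool, (α (mk [x])).norm ≤ N)
    (w : List (Fin 4 × Bool)) : (α (mk w)).norm ≤ N * w.length := by
  induction w with
  | nil => rw [← one_eq_mk, _root_.map_one]; simp
  | cons x w ih =>
    have h1 : (mk (x :: w) : G) = mk [x] * mk w := by rw [mul_mk]; rfl
    rw [h1, _root_.map_mul, List.length_cons, mul_add, mul_one]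
    exact (FreeGroup.norm_mul_le _ _).trans (by have := hN x; omega)

theorem exists_lip (α : G →* G) : ∃ N : ℕ, (∀ x : Fin 4 × Bool, (α (mk [x])).norm ≤ N) ∧
    ∀ g : G, (α g).norm ≤ N * g.norm := by
  refine ⟨Finset.univ.sup fun x : Fin 4 × Bool => (α (mk [x])).norm, ?_, ?_⟩
  · intro x
    exact Finset.le_sup (f := fun x : Fin 4 × Bool => (α (mk [x])).norm) (Finset.mem_univ x)
  · intro g
    have h1 := norm_le_of_letters α _ (fun x =>
      Finset.le_sup (f := fun x : Fin 4 × Bool => (α (mk [x])).norm) (Finset.mem_univ x)) g.toWord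
    rwa [mk_toWord] at h1

end Pool.Agent.CircleShift
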