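import Pool.Agent.Work.MP_0fc146_gt_helper72.TREEpath

/-!
# Chains: translations, splitting at a vertex of the tree (TREEa), and block VConj
-/

set_option autoImplicit false

noncomputable section

namespace Pool.Agent.CircleShift

open FreeGroup

variable {T : Tri}

/-- Chains are invariant under left translations. -/
theorem Tri.Chain.mul_left {x y : G × Fin 8 × ℝ} {r : ℝ} (H : T.Chain x y r) (k : G) :
    T.Chain (k * x.1, x.2) (k * y.1, y.2) r := by
  induction H with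
  | slide h t q q' h1 h2 => exact Tri.Chain.slide _ _ _ _ h1 h2
  | cross h t i q h1 =>
    have h2 := Tri.Chain.cross (T := T) (k * h) t i q h1
    rw [mul_assoc] at h2
    exact h2
  | trans _ _ ih1 ih2 => exact ih1.trans ih2

theorem Tri.Chain.mul_left' {h h' : G} {t t' : Fin 8} {q q' : ℝ} {r : ℝ}
    (H : T.Chain (h, t, q) (h', t', q') r) (k : G) : T.Chain (k * h, t, q) (k * h', t', q') r :=
  H.mul_left k

theorem Tri.Chain.nonneg {x y : G × Fin 8 × ℝ} {r : ℝ} (H : T.Chain x y r) : 0 ≤ r := by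
  induction H with
  | slide h t q q' h1 h2 => exact abs_nonneg _
  | cross h t i q h1 => exact le_rfl
  | trans _ _ ih1 ih2 => exact add_nonneg ih1 ih2

theorem Tri.V_nonneg (T : Tri) (g : G) : 0 ≤ T.V g := by
  apply Real.sInf_nonneg
  rintro r ⟨h, t, q, H⟩
  exact H.nonneg

theorem Tri.Vs_nonneg (T : Tri) (g h : G) : 0 ≤ T.Vs g h := by
  apply Real.sInf_nonneg
  rintro r ⟨t, q, t', q', H⟩
  exact H.nonneg

theorem Tri.V_conj (T : Tri) (g h : G) : T.V (h * g * h⁻¹) = T.V g := by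
  unfold Tri.V
  congr 1
  ext r
  constructor
  · rintro ⟨h', t, q, H⟩
    refine ⟨h⁻¹ * h', t, q, ?_⟩
    have h1 := H.mul_left' h⁻¹
    have h2 : h⁻¹ * (h * g * h⁻¹ * h') = g * (h⁻¹ * h') := by group
    rwa [h2] at h1
  · rintro ⟨h', t, q, H⟩
    refine ⟨h * h', t, q, ?_⟩
    have h1 := H.mul_left' h
    have h2 : h * (g * h') = h * g * h⁻¹ * (h * h') := by group
    rwa [h2] at h1

theorem stmt_VConj : Stmt_VConj := fun T g h => ⟨T.V_conj g h, T.V_nonneg g⟩

theorem Tri.V_le (T : Tri) {g h : G} {t : Fin 8} {q r : ℝ} (H : T.Chain (h, t, q) (g * h, t, q) r) :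
    T.V g ≤ r := by
  apply csInf_le
  · exact ⟨0, by rintro r ⟨h, t, q, H⟩; exact H.nonneg⟩
  · exact ⟨h, t, q, H⟩

theorem Tri.Vs_le (T : Tri) {g h : G} {t t' : Fin 8} {q q' r : ℝ}
    (H : T.Chain (g, t, q) (h, t', q') r) : T.Vs g h ≤ r := by
  apply csInf_le
  · exact ⟨0, by rintro r ⟨t, q, t', q', H⟩; exact H.nonneg⟩
  · exact ⟨t, q, t', q', H⟩

theorem Tri.Vs_mul_left (T : Tri) (k g h : G) : T.Vs (k * g) (k * h) = T.Vs g h := by
  unfold Tri.Vs
  congr 1
  ext r
  constructor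
  · rintro ⟨t, q, t', q', H⟩
    refine ⟨t, q, t', q', ?_⟩
    have h1 := H.mul_left' k⁻¹
    rwa [inv_mul_cancel_left, inv_mul_cancel_left] at h1
  · rintro ⟨t, q, t', q', H⟩
    exact ⟨t, q, t', q', H.mul_left' k⟩

/-! ## Isometric gluings -/

/-- The gluing is isometric and symmetric. -/
structure Tri.Good (T : Tri) : Prop where
  iso : ∀ t e, T.pos t (e + 2) + T.shift t e = T.pos (T.nb t e).1 ((T.nb t e).2 + 1)
  invol : ∀ t e, T.nb (T.nb t e).1 (T.nb t e).2 = (t, e)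
  linv : ∀ t e, T.lab t e * T.lab (T.nb t e).1 (T.nb t e).2 = 1

theorem Tri.Good.shift_left (T : Tri) (t : Fin 8) (e : Fin 3) :
    T.pos t (e + 1) + T.shift t e = T.pos (T.nb t e).1 ((T.nb t e).2 + 2) := by
  unfold Tri.shift
  ring

theorem Tri.Good.inEdge (hT : T.Good) {t : Fin 8} {e : Fin 3} {q : ℝ} (h : T.InEdge t e q) :
    T.InEdge (T.nb t e).1 (T.nb t e).2 (q + T.shift t e) := by
  unfold Tri.InEdge at *
  rw [← hT.iso, ← Tri.Good.shift_left T t e, Set.uIcc_comm]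
  rw [Set.mem_uIcc] at *
  rcases h with h | h
  · left; constructor <;> linarith [h.1, h.2]
  · right; constructor <;> linarith [h.1, h.2]

theorem Tri.inRange_of_inEdge {t : Fin 8} {e : Fin 3} {q : ℝ} (h : T.InEdge t e q) :
    T.InRange t q := by
  unfold Tri.InEdge at h
  rw [Set.mem_uIcc] at h
  rcases h with h | h
  · exact ⟨_, _, h.1, h.2⟩
  · exact ⟨_, _, h.1, h.2⟩

theorem Tri.inRange_pos (t : Fin 8) (i : Fin 3) : T.InRange t (T.pos t i) := ⟨i, i, le_rfl, le_rfl⟩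

theorem Tri.Chain.refl' {t : Fin 8} {q : ℝ} (h : T.InRange t q) (g : G) :
    T.Chain (g, t, q) (g, t, q) 0 := by
  have h1 := Tri.Chain.slide (T := T) g t q q h h
  rwa [sub_self, abs_zero] at h1

/-- Both ends of a chain are leaves of their triangles. -/
theorem Tri.Chain.inRange (hT : T.Good) {x y : G × Fin 8 × ℝ} {r : ℝ} (H : T.Chain x y r) :
    T.InRange x.2.1 x.2.2 ∧ T.InRange y.2.1 y.2.2 := by
  induction H with
  | slide h t q q' h1 h2 => exact ⟨h1, h2⟩
  | cross h t i q h1 =>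
    exact ⟨Tri.inRange_of_inEdge h1, Tri.inRange_of_inEdge (hT.inEdge h1)⟩
  | trans _ _ ih1 ih2 => exact ⟨ih1.1, ih2.2⟩

theorem Tri.Good.shift_symm (hT : T.Good) (t : Fin 8) (e : Fin 3) :
    T.shift (T.nb t e).1 (T.nb t e).2 = - T.shift t e := by
  have h1 : T.shift (T.nb t e).1 (T.nb t e).2 =
    T.pos (T.nb (T.nb t e).1 (T.nb t e).2).1 ((T.nb (T.nb t e).1 (T.nb t e).2).2 + 2) -
      T.pos (T.nb t e).1 ((T.nb t e).2 + 1) := rfl
  rw [h1, hT.invol, ← hT.iso]
  ring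

/-- Chains can be reversed. -/
theorem Tri.Chain.symm (hT : T.Good) {x y : G × Fin 8 × ℝ} {r : ℝ} (H : T.Chain x y r) :
    T.Chain y x r := by
  induction H with
  | slide h t q q' h1 h2 =>
    rw [abs_sub_comm]
    exact Tri.Chain.slide _ _ _ _ h2 h1
  | cross h t i q h1 =>
    have h2 := Tri.Chain.cross (T := T) (h * T.lab t i) (T.nb t i).1 (T.nb t i).2
      (q + T.shift t i) (hT.inEdge h1)
    rw [hT.invol, hT.shift_symm, mul_assoc, hT.linv, mul_one, add_neg_cancel_right] at h2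
    exact h2
  | trans _ _ ih1 ih2 =>
    rw [add_comm]
    exact ih2.trans ih1

/-! ## Splitting -/

/-- Splitting of a chain at a vertex of the tree which separates its ends. -/
theorem chain_split (hT : T.Good) (Cor : G → Fin 8 → G → Prop) (hne : ∀ h t, ∃ v, Cor h t v)
    (hsame : ∀ h t a b w, Cor h t a → Cor h t b → Sep w a b → Cor h t w)
    (hcross : ∀ h t e a b w, Cor h t a → Cor (h * T.lab t e) (T.nb t e).1 b → Sep w a b →
      Cor h t w ∨ Cor (h * T.lab t e) (T.nb t e).1 w)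
    {x y : G × Fin 8 × ℝ} {r : ℝ} (H : T.Chain x y r) : ∀ a b w, Cor x.1 x.2.1 a →
      Cor y.1 y.2.1 b → Sep w a b → ∃ (z : G × Fin 8 × ℝ) (r1 r2 : ℝ), Cor z.1 z.2.1 w ∧
        T.Chain x z r1 ∧ T.Chain z y r2 ∧ r = r1 + r2 := by
  induction H with
  | slide h t q q' h1 h2 =>
    intro a b w ha hb hw
    exact ⟨(h, t, q'), _, _, hsame h t a b w ha hb hw, Tri.Chain.slide _ _ _ _ h1 h2,
      Tri.Chain.refl' h2 _, (add_zero _).symm⟩
  | cross h t i q h1 =>
    intro a b w ha hb hw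
    rcases hcross h t i a b w ha hb hw with h2 | h2
    · exact ⟨(h, t, q), _, _, h2, Tri.Chain.refl' (Tri.inRange_of_inEdge h1) _,
        Tri.Chain.cross _ _ _ _ h1, (add_zero _).symm⟩
    · exact ⟨_, _, _, h2, Tri.Chain.cross _ _ _ _ h1,
        Tri.Chain.refl' (Tri.inRange_of_inEdge (hT.inEdge h1)) _, (add_zero _).symm⟩
  | @trans x y z r r' H1 H2 ih1 ih2 =>
    intro a b w ha hb hw
    obtain ⟨c, hc⟩ := hne y.1 y.2.1
    rcases hw.cases c with h1 | h1
    · obtain ⟨z', r1, r2, h2, h3, h4, h5⟩ := ih1 a c w ha hc h1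
      exact ⟨z', r1, r2 + r', h2, h3, h4.trans H2, by rw [h5, add_assoc]⟩
    · obtain ⟨z', r1, r2, h2, h3, h4, h5⟩ := ih2 c b w hc hb h1
      exact ⟨z', r + r1, r2, h2, H1.trans h3, h4, by rw [h5, add_assoc]⟩

/-- A vertex which separates two vertices of distance at most one is one of them. -/
theorem sep_of_adj {w a b : G} (h : Sep w a b) (h1 : (a⁻¹ * b).norm ≤ 1) : w = a ∨ w = b := by
  have h2 := sep_dist h
  have h3 : (a⁻¹ * w).norm = 0 ∨ (w⁻¹ * b).norm = 0 := by omega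
  rcases h3 with h3 | h3
  · left
    rw [FreeGroup.norm_eq_zero, inv_mul_eq_one] at h3
    exact h3.symm
  · right
    rw [FreeGroup.norm_eq_zero, inv_mul_eq_one] at h3
    exact h3

end Pool.Agent.CircleShift
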