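import Pool.Agent.Work.MP_0fc146_gt_helper72.TREEpath

/-!
# Block BCC : bounded cancellation
-/

set_option autoImplicit false

noncomputable section

namespace Pool.Agent.CircleShift

open FreeGroup

/-- The longest common beginning of two lists. -/
theorem exists_common_prefix {α : Type*} (u v : List α) : ∃ c r s, u = c ++ r ∧ v = c ++ s ∧
    (r = [] ∨ s = [] ∨ r.head? ≠ s.head?) := by
  induction u generalizing v with
  | nil => exact ⟨[], [], v, rfl, rfl, Or.inl rfl⟩
  | cons x u ih =>
    cases v with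
    | nil => exact ⟨[], x :: u, [], rfl, rfl, Or.inr (Or.inl rfl)⟩
    | cons y v =>
      by_cases h : x = y
      · subst h
        obtain ⟨c, r, s, h1, h2, h3⟩ := ih v
        exact ⟨x :: c, r, s, by rw [h1]; rfl, by rw [h2]; rfl, h3⟩
      · exact ⟨[], x :: u, y :: v, rfl, rfl, Or.inr (Or.inr (by simpa using h))⟩

/-- The branch point of the tripod `1, x, y`. -/
theorem exists_median (x y : G) : ∃ A : G, Sep A 1 x ∧ Sep A 1 y ∧ Sep A x y := by
  obtain ⟨c, r, s, h1, h2, h3⟩ := exists_common_prefix x.toWord y.toWord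
  have hw : ∀ (z : G) (t : List (Fin 4 × Bool)), z.toWord = c ++ t →
      ((mk c : G)⁻¹ * z).toWord = t := by
    intro z t h
    have h4 : (mk c : G)⁻¹ * z = mk t := by
      rw [inv_mul_eq_iff_eq_mul, mul_mk, ← h, mk_toWord]
    rw [h4, toWord_mk]
    have h5 : IsReduced (c ++ t) := by rw [← h]; exact isReduced_toWord
    exact (isRed_sub h5 ⟨c, [], by simp⟩ : IsReduced t).reduce_eq
  refine ⟨mk c, sep_prefix x c r h1, sep_prefix y c s h2, ?_⟩
  unfold Sep fl
  rw [hw x r h1, hw y s h2]
  rcases h3 with h3 | h3 | h3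
  · left
    rw [h3, List.append_nil] at h1
    rw [← h1, mk_toWord]
  · right; left
    rw [h3, List.append_nil] at h2
    rw [← h2, mk_toWord]
  · exact Or.inr (Or.inr h3)

/-- The path along the image of the reduced word of `g` passes near every vertex on the geodesic
from `1` to `α g`. -/
theorem image_path (α : G →* G) (N : ℕ) (hN : ∀ x : Fin 4 × Bool, (α (mk [x])).norm ≤ N) (g A : G)
    (hA : Sep A 1 (α g)) : ∃ i ≤ g.norm, (A⁻¹ * α (mk (g.toWord.take i))).norm ≤ N := by
  apply tree_path N (fun i => α (mk (g.toWord.take i))) g.norm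
  · intro i hi
    have h1 : g.toWord.take (i + 1) = g.toWord.take i ++ [g.toWord[i]] := by
      rw [List.take_succ_eq_append_getElem hi]
    change ((α (mk (g.toWord.take i)))⁻¹ * α (mk (g.toWord.take (i + 1)))).norm ≤ N
    rw [h1, ← mul_mk, _root_.map_mul, inv_mul_cancel_left]
    exact hN _
  · have h1 : g.toWord.take g.norm = g.toWord := List.take_length
    have h2 : (mk (g.toWord.take 0) : G) = 1 := rfl
    simp only [h1, h2, _root_.map_one, mk_toWord]
    exact hA

/-- Three points on a geodesic. -/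
theorem geodesic_split {g h : G} (H : (g * h).norm = g.norm + h.norm) (i j : ℕ)
    (hi : i ≤ g.norm) : ((mk (g.toWord.take i))⁻¹ * (g * mk (h.toWord.take j))).norm =
      (g.norm - i) + (mk (h.toWord.take j) : G).norm := by
  have h1 : (mk (g.toWord.take i) : G)⁻¹ * g = mk (g.toWord.drop i) := by
    rw [inv_mul_eq_iff_eq_mul, mul_mk, List.take_append_drop, mk_toWord]
  rw [← mul_assoc, h1]
  have hr : IsReduced (g.toWord ++ h.toWord) := (norm_mul_eq_iff g h).1 H
  have h2 : IsReduced (g.toWord.drop i ++ h.toWord.take j) := by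
    refine isRed_sub hr ⟨g.toWord.take i, h.toWord.drop j, ?_⟩
    rw [← List.append_assoc, List.take_append_drop, List.append_assoc, List.take_append_drop]
  have h3 : (mk (g.toWord.drop i) : G).toWord = g.toWord.drop i := by
    rw [toWord_mk]
    exact (isRed_sub h2 ⟨[], h.toWord.take j, by simp⟩ : IsReduced (g.toWord.drop i)).reduce_eq
  have h4 : (mk (h.toWord.take j) : G).toWord = h.toWord.take j := by
    rw [toWord_mk]
    exact (isRed_sub h2 ⟨g.toWord.drop i, [], by simp⟩ : IsReduced (h.toWord.take j)).reduce_eq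
  rw [(norm_mul_eq_iff _ _).2 (by rw [h3, h4]; exact h2)]
  congr 1
  change (mk (g.toWord.drop i) : G).toWord.length = _
  rw [h3, List.length_drop]
  rfl

theorem stmt_BCC : Stmt_BCC := by
  intro α
  obtain ⟨N, hN, hNl⟩ := exists_lip α.toMonoidHom
  obtain ⟨M, -, hM⟩ := exists_lip α.symm.toMonoidHom
  have hN' : ∀ x : Fin 4 × Bool, (α (mk [x])).norm ≤ N := hN
  have hNl' : ∀ g, (α g).norm ≤ N * g.norm := hNl
  have hM' : ∀ g, (α.symm g).norm ≤ M * g.norm := hM
  refine ⟨N + N * (M * (2 * N)), ?_⟩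
  intro g h H
  obtain ⟨A, hA1, hA2, hA3⟩ := exists_median (α g) (α (g * h))
  have hinv : ∀ x y : G, (x⁻¹ * y).norm = (y⁻¹ * x).norm := by
    intro x y; rw [← norm_inv_eq]; congr 1; group
  -- the two prefixes near the branch point
  obtain ⟨i, hi, hi1⟩ := image_path α.toMonoidHom N hN g A hA1
  have hA4 : Sep ((α g)⁻¹ * A) 1 (α h) := by
    have h1 : Sep ((α g)⁻¹ * A) ((α g)⁻¹ * α g) ((α g)⁻¹ * α (g * h)) := sep_mul_left.2 hA3
    rwa [inv_mul_cancel, _root_.map_mul, inv_mul_cancel_left] at h1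
  obtain ⟨j, hj, hj1⟩ := image_path α.toMonoidHom N hN h _ hA4
  have hi2 : (A⁻¹ * α (mk (g.toWord.take i))).norm ≤ N := hi1
  have hj2 : (A⁻¹ * α (g * mk (h.toWord.take j))).norm ≤ N := by
    have h1 : (((α g)⁻¹ * A)⁻¹ * α (mk (h.toWord.take j))).norm ≤ N := hj1
    have h2 : ((α g)⁻¹ * A)⁻¹ * α (mk (h.toWord.take j)) = A⁻¹ * α (g * mk (h.toWord.take j)) := by
      rw [_root_.map_mul]; group
    rwa [h2] at h1
  -- their distance
  have h3 : ((mk (g.toWord.take i))⁻¹ * (g * mk (h.toWord.take j))).norm ≤ M * (2 * N) := by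
    have h4 := hM' ((α (mk (g.toWord.take i)))⁻¹ * α (g * mk (h.toWord.take j)))
    have h5 : α.symm ((α (mk (g.toWord.take i)))⁻¹ * α (g * mk (h.toWord.take j))) =
        (mk (g.toWord.take i))⁻¹ * (g * mk (h.toWord.take j)) := by
      rw [_root_.map_mul, _root_.map_inv, MulEquiv.symm_apply_apply, MulEquiv.symm_apply_apply]
    rw [h5] at h4
    refine h4.trans (Nat.mul_le_mul_left M ?_)
    have h6 : (α (mk (g.toWord.take i)))⁻¹ * α (g * mk (h.toWord.take j)) =
        (A⁻¹ * α (mk (g.toWord.take i)))⁻¹ * (A⁻¹ * α (g * mk (h.toWord.take j))) := by group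
    rw [h6]
    refine (FreeGroup.norm_mul_le _ _).trans ?_
    rw [norm_inv_eq]
    omega
  rw [geodesic_split H i j hi] at h3
  -- the branch point is near `α g`
  have h7 : (A⁻¹ * α g).norm ≤ N + N * (M * (2 * N)) := by
    have h8 : A⁻¹ * α g = (A⁻¹ * α (mk (g.toWord.take i))) * α ((mk (g.toWord.take i))⁻¹ * g) := by
      rw [_root_.map_mul, _root_.map_inv]; group
    rw [h8]
    refine (FreeGroup.norm_mul_le _ _).trans (Nat.add_le_add hi2 ?_)
    refine (hNl' _).trans (Nat.mul_le_mul_left N ?_)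
    have h9 : (mk (g.toWord.take i) : G)⁻¹ * g = mk (g.toWord.drop i) := by
      rw [inv_mul_eq_iff_eq_mul, mul_mk, List.take_append_drop, mk_toWord]
    rw [h9]
    refine norm_mk_le.trans ?_
    rw [List.length_drop]
    change g.norm - i ≤ _
    omega
  -- lengths
  have l1 := sep_dist hA1
  have l2 := sep_dist hA2
  have l3 := sep_dist hA3
  have l4 : ((α g)⁻¹ * α (g * h)).norm = (α h).norm := by
    rw [_root_.map_mul, inv_mul_cancel_left]
  rw [inv_one, one_mul] at l1 l2
  rw [l4, hinv] at l3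
  omega

end Pool.Agent.CircleShift
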