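import Pool.Agent.Work.MP_0fc146_gt_helper72.TREEa

/-!
# Block Coarse : comparison of `V` with the weighted word length
-/

set_option autoImplicit false

noncomputable section

namespace Pool.Agent.CircleShift

open FreeGroup

/-! ## Symbolic tests -/

/-- The test for a symmetric isometric gluing. -/
def STri.Ok (T : STri) : Prop :=
  (∀ t e, T.pos t (e + 2) + T.pos (T.nb t e).1 ((T.nb t e).2 + 2) =
    T.pos (T.nb t e).1 ((T.nb t e).2 + 1) + T.pos t (e + 1)) ∧
  (∀ t e, T.nb (T.nb t e).1 (T.nb t e).2 = (t, e)) ∧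
  (∀ t e, reduce (T.lab t e ++ T.lab (T.nb t e).1 (T.nb t e).2) = [])

instance (T : STri) : Decidable T.Ok := by unfold STri.Ok; infer_instance

/-- Evaluation of symbolic positions. -/
def pval (s : ℝ) (x : ℤ × ℤ × ℤ) : ℝ := (x.1 + x.2.1 * √3) / 2 + x.2.2 * s

theorem pval_add (s : ℝ) (x y : ℤ × ℤ × ℤ) : pval s (x + y) = pval s x + pval s y := by
  unfold pval
  simp only [Prod.fst_add, Prod.snd_add]
  push_cast
  ring

theorem STri.real_pos (T : STri) (s : ℝ) (t : Fin 8) (i : Fin 3) :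
    (T.real s).pos t i = pval s (T.pos t i) := rfl

theorem STri.Ok.good {T : STri} (hT : T.Ok) (s : ℝ) : (T.real s).Good := by
  refine ⟨?_, hT.2.1, ?_⟩
  · intro t e
    have h1 := congrArg (pval s) (hT.1 t e)
    rw [pval_add, pval_add] at h1
    unfold Tri.shift
    simp only [STri.real_pos]
    change pval s (T.pos t (e + 2)) + (pval s (T.pos (T.nb t e).1 ((T.nb t e).2 + 2)) -
      pval s (T.pos t (e + 1))) = pval s (T.pos (T.nb t e).1 ((T.nb t e).2 + 1))
    linarith
  · intro t e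
    change (FreeGroup.mk (T.lab t e) : G) * FreeGroup.mk (T.lab (T.nb t e).1 (T.nb t e).2) = 1
    rw [mul_mk, one_eq_mk]
    exact reduce.exact (by rw [hT.2.2 t e]; rfl)

theorem stri_ok : ∀ j, (stri j).Ok := by decide +kernel

theorem ostri_ok : ostri.Ok := by decide +kernel

theorem stri_good (j : Fin 3) (s : ℝ) : ((stri j).real s).Good := (stri_ok j).good s

theorem ostri_good (s : ℝ) : (ostri.real s).Good := ostri_ok.good s

/-! ## Words of the corners -/

def piTab : Fin 3 → List (Fin 4) := ![[3, 1, 0, 2], [3, 0, 2, 1], [3, 2, 1, 0]]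

/-- The words of the corners `1` and `2` of the triangle `t`. -/
def cwW (j : Fin 3) (t : Fin 8) (i : Fin 3) : List (Fin 4 × Bool) :=
  if i = 0 then [] else if t.val < 4 then
    (if i = 2 then posW ([0, 1, 2, 3].take t.val) else posW ([0, 1, 2, 3].take (t.val + 1)))
  else (if i = 2 then posW ((piTab j).take (t.val - 3)) else posW ((piTab j).take (t.val - 4)))

/-- The weight of a word. -/
def Xp (j : Fin 3) (w : List (Fin 4 × Bool)) : ℤ × ℤ :=
  (w.map (fun x => if x.2 then widTab j x.1 else -(widTab j x.1))).sum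

/-- Test for `0 ≤ a + b √3`. -/
def nn3 (x : ℤ × ℤ) : Prop := (0 ≤ x.1 ∧ 0 ≤ x.2) ∨ (0 ≤ x.1 ∧ 3 * x.2 ^ 2 ≤ x.1 ^ 2) ∨
  (0 ≤ x.2 ∧ x.1 ^ 2 ≤ 3 * x.2 ^ 2)

instance (x : ℤ × ℤ) : Decidable (nn3 x) := by unfold nn3; infer_instance

theorem z3_nonneg {x : ℤ × ℤ} (h : nn3 x) : 0 ≤ z3 x := by
  have hs : (0 : ℝ) ≤ √3 := Real.sqrt_nonneg 3
  have hs2 : √3 * √3 = 3 := Real.mul_self_sqrt (by norm_num)
  unfold z3
  rcases h with ⟨h1, h2⟩ | ⟨h1, h2⟩ | ⟨h1, h2⟩
  · have h3 : (0 : ℝ) ≤ x.1 := by exact_mod_cast h1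
    have h4 : (0 : ℝ) ≤ x.2 := by exact_mod_cast h2
    positivity
  · have h3 : (0 : ℝ) ≤ x.1 := by exact_mod_cast h1
    have h4 : 3 * (x.2 : ℝ) ^ 2 ≤ (x.1 : ℝ) ^ 2 := by exact_mod_cast h2
    have h5 : |(x.2 : ℝ) * √3| ≤ x.1 := by
      apply abs_le_of_sq_le_sq _ h3
      calc ((x.2 : ℝ) * √3) ^ 2 = 3 * (x.2 : ℝ) ^ 2 := by
            rw [mul_pow]; rw [show (√3 : ℝ) ^ 2 = 3 by rw [sq]; exact hs2]; ring
        _ ≤ _ := h4
    have h6 := (abs_le.1 h5).1
    linarith
  · have h3 : (0 : ℝ) ≤ x.2 := by exact_mod_cast h1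
    have h4 : (x.1 : ℝ) ^ 2 ≤ 3 * (x.2 : ℝ) ^ 2 := by exact_mod_cast h2
    have h5 : |(x.1 : ℝ)| ≤ x.2 * √3 := by
      apply abs_le_of_sq_le_sq _ (by positivity)
      calc (x.1 : ℝ) ^ 2 ≤ 3 * (x.2 : ℝ) ^ 2 := h4
        _ = ((x.2 : ℝ) * √3) ^ 2 := by
            rw [mul_pow]; rw [show (√3 : ℝ) ^ 2 = 3 by rw [sq]; exact hs2]; ring
    have h6 := (abs_le.1 h5).1
    linarith

theorem z3_add (x y : ℤ × ℤ) : z3 (x + y) = z3 x + z3 y := by
  unfold z3
  simp only [Prod.fst_add, Prod.snd_add]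
  push_cast
  ring

theorem z3_neg (x : ℤ × ℤ) : z3 (-x) = - z3 x := by
  unfold z3
  simp only [Prod.fst_neg, Prod.snd_neg]
  push_cast
  ring

theorem z3_zero : z3 0 = 0 := by simp [z3]

theorem pos_tab : ∀ j t i, i ≠ 0 → (stri j).pos t i =
    ((endTab j).1 + 2 * (Xp j (cwW j t i)).1, (endTab j).2 + 2 * (Xp j (cwW j t i)).2, 0) := by
  decide +kernel

theorem pos_tab0 : ∀ j t, (stri j).pos t 0 = (0, 0, 1) := by decide +kernel

theorem glue_tab1 : ∀ j t e, e + 1 ≠ (0 : Fin 3) → ((stri j).nb t e).2 + 2 ≠ 0 ∧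
    reduce ((stri j).lab t e ++ cwW j ((stri j).nb t e).1 (((stri j).nb t e).2 + 2)) =
      reduce (cwW j t (e + 1)) := by decide +kernel

theorem glue_tab2 : ∀ j t e, e + 2 ≠ (0 : Fin 3) → ((stri j).nb t e).2 + 1 ≠ 0 ∧
    reduce ((stri j).lab t e ++ cwW j ((stri j).nb t e).1 (((stri j).nb t e).2 + 1)) =
      reduce (cwW j t (e + 2)) := by decide +kernel

theorem glue_tab3 : ∀ j t e, e + 1 = (0 : Fin 3) → ((stri j).nb t e).2 + 2 = 0 ∧
    Xp j ((stri j).lab t e) = 0 := by decide +kernel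

theorem adj_tab : ∀ j t, (reduce (invRev (cwW j t 1) ++ cwW j t 2)).length = 1 := by
  decide +kernel

theorem range_tab : ∀ j t i, nn3 (Xp j (cwW j t i)) ∧ nn3 ((1, 0) - Xp j (cwW j t i)) := by
  decide +kernel

theorem upper_tab : ∀ (j : Fin 3) (k : Fin 4), cwW j (k.castAdd 4) 1 = cwW j (k.castAdd 4) 2 ++ [(k, true)] := by
  decide +kernel

/-- Turning around a corner. -/
def turn (j : Fin 3) (x : Fin 8 × Fin 3) : Fin 8 × Fin 3 :=
  (((stri j).nb x.1 (x.2 + 1)).1, ((stri j).nb x.1 (x.2 + 1)).2 + 1)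

theorem turn_tab : ∀ (j : Fin 3) (t : Fin 8) (i : Fin 3), i ≠ 0 → ∃ n : Fin 16,
    (turn j)^[n.val] (0, 2) = (t, i) := by decide +kernel


/-! ## Weights of group elements -/

/-- The homomorphism with the widths as values. -/
def Xh (j : Fin 3) : G →* Multiplicative ℝ :=
  FreeGroup.lift (fun k => Multiplicative.ofAdd (wid j k))

def XX (j : Fin 3) (g : G) : ℝ := (Xh j g).toAdd

theorem XX_one (j : Fin 3) : XX j 1 = 0 := by
  unfold XX
  rw [_root_.map_one]
  rfl

theorem XX_mul (j : Fin 3) (g h : G) : XX j (g * h) = XX j g + XX j h := by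
  unfold XX
  rw [_root_.map_mul]
  rfl

theorem XX_inv (j : Fin 3) (g : G) : XX j g⁻¹ = - XX j g := by
  unfold XX
  rw [_root_.map_inv]
  rfl

theorem XX_of (j : Fin 3) (k : Fin 4) : XX j (FreeGroup.of k) = wid j k := by
  unfold XX Xh
  rw [FreeGroup.lift_apply_of]
  rfl

theorem XX_letter (j : Fin 3) (x : Fin 4 × Bool) : XX j (FreeGroup.mk [x]) =
    if x.2 then wid j x.1 else -(wid j x.1) := by
  rcases x with ⟨k, b⟩
  cases b
  · have h1 : (FreeGroup.mk [(k, false)] : G) = (FreeGroup.of k)⁻¹ := rfl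
    rw [h1, XX_inv, XX_of]
    simp
  · have h1 : (FreeGroup.mk [(k, true)] : G) = FreeGroup.of k := rfl
    rw [h1, XX_of]
    simp

theorem mk_cons (x : Fin 4 × Bool) (w : List (Fin 4 × Bool)) :
    (FreeGroup.mk (x :: w) : G) = FreeGroup.mk [x] * FreeGroup.mk w := by
  rw [mul_mk]; rfl

theorem XX_mk (j : Fin 3) (w : List (Fin 4 × Bool)) : XX j (FreeGroup.mk w) = z3 (Xp j w) := by
  induction w with
  | nil =>
    rw [← one_eq_mk, XX_one]
    exact z3_zero.symm
  | cons x w ih =>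
    rw [mk_cons, XX_mul, ih, XX_letter]
    have h1 : Xp j (x :: w) = (if x.2 then widTab j x.1 else -(widTab j x.1)) + Xp j w := rfl
    rw [h1, z3_add]
    congr 1
    split
    · rfl
    · rw [z3_neg]; rfl

theorem wid_pos (j : Fin 3) (k : Fin 4) : 0 < wid j k := by
  have hs : (0 : ℝ) ≤ √3 := Real.sqrt_nonneg 3
  have hs2 : √3 * √3 = 3 := Real.mul_self_sqrt (by norm_num)
  have h1 : ∀ j k, nn3 (widTab j k) ∧ widTab j k ≠ 0 ∧ (widTab j k).1 ^ 2 ≠ 3 * (widTab j k).2 ^ 2 := by
    decide +kernel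
  obtain ⟨h2, h3, h4⟩ := h1 j k
  refine lt_of_le_of_ne (z3_nonneg h2) ?_
  intro h5
  have h5' : (0 : ℝ) = z3 (widTab j k) := h5
  unfold z3 at h5'
  apply h4
  have h6 : ((widTab j k).1 : ℝ) ^ 2 = 3 * ((widTab j k).2 : ℝ) ^ 2 := by
    have h7 : ((widTab j k).1 : ℝ) = -((widTab j k).2 * √3) := by linarith
    rw [h7, neg_sq, mul_pow, sq √3, hs2]
    ring
  exact_mod_cast h6

theorem wlen_nil (j : Fin 3) : wlen j [] = 0 := rfl

theorem wlen_cons' (j : Fin 3) (x : Fin 4 × Bool) (w : List (Fin 4 × Bool)) :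
    wlen j (x :: w) = wid j x.1 + wlen j w := rfl

theorem wlen_append' (j : Fin 3) (u v : List (Fin 4 × Bool)) :
    wlen j (u ++ v) = wlen j u + wlen j v := by
  simp [wlen]

theorem wlen_nonneg' (j : Fin 3) (w : List (Fin 4 × Bool)) : 0 ≤ wlen j w := by
  induction w with
  | nil => exact le_rfl
  | cons x w ih => rw [wlen_cons']; linarith [wid_pos j x.1]

/-- The weight of a word with constant sign. -/
theorem abs_XX_of_SH (j : Fin 3) (w : List (Fin 4 × Bool)) (h : SH w) :
    |XX j (FreeGroup.mk w)| = wlen j w := by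
  have key : ∀ b : Bool, ∀ w : List (Fin 4 × Bool), (∀ x ∈ w, x.2 = b) →
      XX j (FreeGroup.mk w) = if b then wlen j w else - wlen j w := by
    intro b w
    induction w with
    | nil => intro _; rw [← one_eq_mk, XX_one, wlen_nil]; simp
    | cons x w ih =>
      intro hw
      rw [mk_cons, XX_mul, XX_letter, ih (fun y hy => hw y (List.mem_cons_of_mem _ hy)),
        hw x List.mem_cons_self, wlen_cons']
      cases b
      · simp; ring
      · simp
  cases w with
  | nil => rw [← one_eq_mk, XX_one, wlen_nil, abs_zero]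
  | cons y w =>
    rw [key y.2 (y :: w) (fun x hx => h x hx y List.mem_cons_self)]
    have h1 := wlen_nonneg' j (y :: w)
    cases y.2
    · simp [abs_of_nonneg h1]
    · simp [abs_of_nonneg h1]

/-! ## Corners -/

/-- The element of the corner. -/
def cw (j : Fin 3) (t : Fin 8) (i : Fin 3) : G := FreeGroup.mk (cwW j t i)

theorem XX_cw (j : Fin 3) (t : Fin 8) (i : Fin 3) : 0 ≤ XX j (cw j t i) ∧ XX j (cw j t i) ≤ 1 := by
  unfold cw
  rw [XX_mk]
  obtain ⟨h1, h2⟩ := range_tab j t i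
  refine ⟨z3_nonneg h1, ?_⟩
  have h3 := z3_nonneg h2
  rw [sub_eq_add_neg, z3_add, z3_neg] at h3
  have h4 : z3 (1, 0) = 1 := by simp [z3]
  linarith

theorem pos_real (j : Fin 3) (s : ℝ) (t : Fin 8) (i : Fin 3) (hi : i ≠ 0) :
    ((stri j).real s).pos t i = lft j + XX j (cw j t i) := by
  rw [STri.real_pos, pos_tab j t i hi]
  unfold cw
  rw [XX_mk]
  unfold pval lft z3
  push_cast
  ring

theorem pos_real0 (j : Fin 3) (s : ℝ) (t : Fin 8) : ((stri j).real s).pos t 0 = s := by
  rw [STri.real_pos, pos_tab0]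
  unfold pval
  push_cast
  ring

theorem glue1 (j : Fin 3) (s : ℝ) (t : Fin 8) (e : Fin 3) (he : e + 1 ≠ 0) :
    ((stri j).nb t e).2 + 2 ≠ 0 ∧ ((stri j).real s).lab t e *
      cw j ((stri j).nb t e).1 (((stri j).nb t e).2 + 2) = cw j t (e + 1) := by
  obtain ⟨h1, h2⟩ := glue_tab1 j t e he
  refine ⟨h1, ?_⟩
  change (FreeGroup.mk ((stri j).lab t e) : G) * FreeGroup.mk _ = FreeGroup.mk _
  rw [mul_mk]
  exact reduce.exact h2

theorem glue2 (j : Fin 3) (s : ℝ) (t : Fin 8) (e : Fin 3) (he : e + 2 ≠ 0) :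
    ((stri j).nb t e).2 + 1 ≠ 0 ∧ ((stri j).real s).lab t e *
      cw j ((stri j).nb t e).1 (((stri j).nb t e).2 + 1) = cw j t (e + 2) := by
  obtain ⟨h1, h2⟩ := glue_tab2 j t e he
  refine ⟨h1, ?_⟩
  change (FreeGroup.mk ((stri j).lab t e) : G) * FreeGroup.mk _ = FreeGroup.mk _
  rw [mul_mk]
  exact reduce.exact h2

theorem XX_lab (j : Fin 3) (s : ℝ) (t : Fin 8) (e : Fin 3) :
    XX j (((stri j).real s).lab t e) = - ((stri j).real s).shift t e := by
  have hsh : ((stri j).real s).shift t e = ((stri j).real s).pos ((stri j).nb t e).1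
    (((stri j).nb t e).2 + 2) - ((stri j).real s).pos t (e + 1) := rfl
  rw [hsh]
  by_cases he : e + 1 = 0
  · obtain ⟨h1, h2⟩ := glue_tab3 j t e he
    rw [he, h1, pos_real0, pos_real0]
    change XX j (FreeGroup.mk ((stri j).lab t e)) = _
    rw [XX_mk, h2, z3_zero]
    ring
  · obtain ⟨h1, h2⟩ := glue1 j s t e he
    rw [pos_real j s _ _ he, pos_real j s _ _ h1, ← h2, XX_mul]
    ring

/-- The vertices of the tree at a triangle. -/
def Cor (j : Fin 3) (h : G) (t : Fin 8) (v : G) : Prop := v = h * cw j t 1 ∨ v = h * cw j t 2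

theorem Cor.mk' (j : Fin 3) (h : G) (t : Fin 8) {i : Fin 3} (hi : i ≠ 0) :
    Cor j h t (h * cw j t i) := by
  have h1 : i = 1 ∨ i = 2 := by revert hi; revert i; decide
  rcases h1 with rfl | rfl
  · exact Or.inl rfl
  · exact Or.inr rfl

theorem cor_adj (j : Fin 3) (h : G) (t : Fin 8) (v v' : G) (hv : Cor j h t v) (hv' : Cor j h t v') :
    (v⁻¹ * v').norm ≤ 1 := by
  have h1 : ((cw j t 1)⁻¹ * cw j t 2).norm = 1 := by
    unfold cw
    rw [FreeGroup.inv_mk, mul_mk]
    unfold FreeGroup.norm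
    rw [toWord_mk]
    exact adj_tab j t
  have h2 : ((cw j t 2)⁻¹ * cw j t 1).norm = 1 := by
    rw [← FreeGroup.norm_inv_eq, ← h1]; congr 1; group
  rcases hv with rfl | rfl <;> rcases hv' with rfl | rfl
  · simp
  · have h3 : (h * cw j t 1)⁻¹ * (h * cw j t 2) = (cw j t 1)⁻¹ * cw j t 2 := by group
    rw [h3, h1]
  · have h3 : (h * cw j t 2)⁻¹ * (h * cw j t 1) = (cw j t 2)⁻¹ * cw j t 1 := by group
    rw [h3, h2]
  · simp

theorem cor_same (j : Fin 3) (h : G) (t : Fin 8) (v v' w : G) (hv : Cor j h t v)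
    (hv' : Cor j h t v') (hw : Sep w v v') : Cor j h t w := by
  rcases sep_of_adj hw (cor_adj j h t v v' hv hv') with rfl | rfl
  · exact hv
  · exact hv'

theorem cor_cross (j : Fin 3) (s : ℝ) (h : G) (t : Fin 8) (e : Fin 3) (v v' w : G)
    (hv : Cor j h t v) (hv' : Cor j (h * ((stri j).real s).lab t e) ((stri j).nb t e).1 v')
    (hw : Sep w v v') : Cor j h t w ∨ Cor j (h * ((stri j).real s).lab t e) ((stri j).nb t e).1 w := by
  -- a common vertex
  obtain ⟨u, hu1, hu2⟩ : ∃ u, Cor j h t u ∧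
      Cor j (h * ((stri j).real s).lab t e) ((stri j).nb t e).1 u := by
    by_cases he : e + 1 = 0
    · have he' : e + 2 ≠ 0 := by
        have aux : ∀ e : Fin 3, e + 1 = 0 → e + 2 ≠ 0 := by decide
        exact aux e he
      obtain ⟨h1, h2⟩ := glue2 j s t e he'
      refine ⟨h * cw j t (e + 2), Cor.mk' j h t he', ?_⟩
      rw [← h2, ← mul_assoc]
      exact Cor.mk' j _ _ h1
    · obtain ⟨h1, h2⟩ := glue1 j s t e he
      refine ⟨h * cw j t (e + 1), Cor.mk' j h t he, ?_⟩
      rw [← h2, ← mul_assoc]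
      exact Cor.mk' j _ _ h1
  rcases hw.cases u with h1 | h1
  · exact Or.inl (cor_same j h t v u w hv hu1 h1)
  · exact Or.inr (cor_same j _ _ u v' w hu2 hv' h1)

theorem coarse_split (j : Fin 3) (s : ℝ) {x y : G × Fin 8 × ℝ} {r : ℝ}
    (H : ((stri j).real s).Chain x y r) (a b w : G) (ha : Cor j x.1 x.2.1 a)
    (hb : Cor j y.1 y.2.1 b) (hw : Sep w a b) : ∃ (z : G × Fin 8 × ℝ) (r1 r2 : ℝ),
      Cor j z.1 z.2.1 w ∧ ((stri j).real s).Chain x z r1 ∧ ((stri j).real s).Chain z y r2 ∧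
        r = r1 + r2 :=
  chain_split (stri_good j s) (Cor j) (fun _ _ => ⟨_, Or.inl rfl⟩)
    (fun h t a b w ha hb hw => cor_same j h t a b w ha hb hw)
    (fun h t e a b w ha hb hw => cor_cross j s h t e a b w ha hb hw) H a b w ha hb hw

/-! ## The lower bound -/

theorem chain_gv (j : Fin 3) (s : ℝ) {x y : G × Fin 8 × ℝ} {r : ℝ}
    (H : ((stri j).real s).Chain x y r) : |(XX j x.1 + x.2.2) - (XX j y.1 + y.2.2)| ≤ r := by
  induction H with
  | slide h t q q' h1 h2 => simp
  | cross h t i q h1 =>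
    change |(XX j h + q) - (XX j (h * ((stri j).real s).lab t i) +
      (q + ((stri j).real s).shift t i))| ≤ 0
    rw [XX_mul, XX_lab]
    apply le_of_eq
    rw [abs_eq_zero]
    ring
  | trans _ _ ih1 ih2 =>
    rename_i x y z r r' _ _
    calc |(XX j x.1 + x.2.2) - (XX j z.1 + z.2.2)|
        = |((XX j x.1 + x.2.2) - (XX j y.1 + y.2.2)) +
            ((XX j y.1 + y.2.2) - (XX j z.1 + z.2.2))| := by ring_nf
      _ ≤ _ := (abs_add_le _ _).trans (add_le_add ih1 ih2)

theorem pos_bounds (j : Fin 3) {s : ℝ} (hs : s ∈ K j) (t : Fin 8) (i : Fin 3) :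
    lft j ≤ ((stri j).real s).pos t i ∧ ((stri j).real s).pos t i ≤ lft j + 1 := by
  by_cases hi : i = 0
  · rw [hi, pos_real0]
    exact hs
  · rw [pos_real j s t i hi]
    have := XX_cw j t i
    constructor <;> linarith [this.1, this.2]

theorem range_bounds (j : Fin 3) {s : ℝ} (hs : s ∈ K j) {t : Fin 8} {q : ℝ}
    (h : ((stri j).real s).InRange t q) : lft j ≤ q ∧ q ≤ lft j + 1 := by
  obtain ⟨i, i', h1, h2⟩ := h
  exact ⟨(pos_bounds j hs t i).1.trans h1, h2.trans (pos_bounds j hs t i').2⟩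

theorem cor_gv (j : Fin 3) {s : ℝ} (hs : s ∈ K j) {h : G} {t : Fin 8} {q : ℝ} {v : G}
    (hq : ((stri j).real s).InRange t q) (hv : Cor j h t v) :
    |(XX j h + q) - (XX j v + lft j)| ≤ 1 := by
  obtain ⟨h1, h2⟩ := range_bounds j hs hq
  have h3 : ∃ i, v = h * cw j t i := by
    rcases hv with h3 | h3
    · exact ⟨1, h3⟩
    · exact ⟨2, h3⟩
  obtain ⟨i, rfl⟩ := h3
  obtain ⟨h4, h5⟩ := XX_cw j t i
  rw [XX_mul, abs_le]
  constructor <;> linarith

theorem pieces_bound (j : Fin 3) {s : ℝ} (hs : s ∈ K j) (L : List (List (Fin 4 × Bool))) :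
    (∀ w ∈ L, SH w) → FreeGroup.IsReduced L.flatten → ∀ {x y : G × Fin 8 × ℝ} {r : ℝ},
      ((stri j).real s).Chain x y r → ∀ a b : G, Cor j x.1 x.2.1 a → Cor j y.1 y.2.1 b →
      b = a * FreeGroup.mk L.flatten → wlen j L.flatten - 2 * L.length ≤ r := by
  induction L with
  | nil =>
    intro _ _ x y r H a b _ _ _
    have := H.nonneg
    simpa [wlen] using this
  | cons B L ih =>
    intro hL hred x y r H a b ha hb hab
    rw [List.flatten_cons] at hred hab ⊢
    have hB : FreeGroup.IsReduced B := isRed_sub hred ⟨[], L.flatten, by simp⟩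
    have hL' : FreeGroup.IsReduced L.flatten := isRed_sub hred ⟨B, [], by simp⟩
    have hBw : (FreeGroup.mk B : G).toWord = B := by rw [toWord_mk]; exact hB.reduce_eq
    have hLw : (FreeGroup.mk L.flatten : G).toWord = L.flatten := by
      rw [toWord_mk]; exact hL'.reduce_eq
    have hsep : Sep (a * FreeGroup.mk B) a b := by
      rw [sep_iff]
      have e1 : a⁻¹ * (a * FreeGroup.mk B) = FreeGroup.mk B := by group
      have e2 : (a * FreeGroup.mk B)⁻¹ * b = FreeGroup.mk L.flatten := by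
        rw [hab, ← mul_mk]; group
      rw [e1, e2, hBw, hLw]
      exact hred
    obtain ⟨z, r1, r2, hz, H1, H2, hr⟩ := coarse_split j s H a b _ ha hb hsep
    have h2 := ih (fun w hw => hL w (List.mem_cons_of_mem _ hw)) hL' H2 _ b hz hb
      (by rw [hab, mul_assoc, mul_mk])
    have h3 : wlen j B - 2 ≤ r1 := by
      have h4 := chain_gv j s H1
      have h5 := H1.inRange (stri_good j s)
      have h6 := cor_gv j hs h5.1 ha
      have h7 := cor_gv j hs h5.2 hz
      have h8 := abs_XX_of_SH j B (hL B List.mem_cons_self)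
      rw [XX_mul] at h7
      rw [← h8]
      rw [abs_le] at h4 h6 h7
      have h9 : |XX j (FreeGroup.mk B)| ≤ r1 + 2 := by
        rw [abs_le]
        constructor <;> linarith [h4.1, h4.2, h6.1, h6.2, h7.1, h7.2]
      linarith
    rw [wlen_append', List.length_cons]
    push_cast
    linarith

/-! ## The upper bound -/

theorem cw_zero (j : Fin 3) : cw j 0 2 = 1 := by
  unfold cw
  rw [one_eq_mk]
  congr 1

theorem turn_chain (j : Fin 3) (s : ℝ) (t : Fin 8) (i : Fin 3) (hi : i ≠ 0) :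
    (turn j (t, i)).2 ≠ 0 ∧ ((stri j).real s).Chain ((cw j t i)⁻¹, t, ((stri j).real s).pos t i)
      ((cw j (turn j (t, i)).1 (turn j (t, i)).2)⁻¹, (turn j (t, i)).1,
        ((stri j).real s).pos (turn j (t, i)).1 (turn j (t, i)).2) 0 := by
  have hi2 : i + 1 + 2 = i := by revert i; decide
  have he : (i + 1) + 2 ≠ 0 := by rw [hi2]; exact hi
  obtain ⟨h1, h2⟩ := glue2 j s t (i + 1) he
  refine ⟨h1, ?_⟩
  rw [hi2] at h2
  have h3 : ((stri j).real s).InEdge t (i + 1) (((stri j).real s).pos t i) := by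
    unfold Tri.InEdge
    rw [hi2]
    exact Set.right_mem_uIcc
  have h4 := Tri.Chain.cross (T := (stri j).real s) (cw j t i)⁻¹ t (i + 1) _ h3
  have h5 := (stri_good j s).iso t (i + 1)
  rw [hi2] at h5
  rw [h5] at h4
  have h6 : (cw j t i)⁻¹ * ((stri j).real s).lab t (i + 1) =
      (cw j (turn j (t, i)).1 (turn j (t, i)).2)⁻¹ := by
    change _ = (cw j ((stri j).nb t (i + 1)).1 (((stri j).nb t (i + 1)).2 + 1))⁻¹
    rw [← h2]
    group
  rw [h6] at h4
  exact h4

theorem corner_chain (j : Fin 3) (s : ℝ) (t : Fin 8) (i : Fin 3) (hi : i ≠ 0) :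
    ((stri j).real s).Chain (1, 0, ((stri j).real s).pos 0 2)
      ((cw j t i)⁻¹, t, ((stri j).real s).pos t i) 0 := by
  have key : ∀ n : ℕ, ((turn j)^[n] (0, 2)).2 ≠ 0 ∧ ((stri j).real s).Chain
      (1, 0, ((stri j).real s).pos 0 2) ((cw j ((turn j)^[n] (0, 2)).1 ((turn j)^[n] (0, 2)).2)⁻¹,
        ((turn j)^[n] (0, 2)).1, ((stri j).real s).pos ((turn j)^[n] (0, 2)).1
          ((turn j)^[n] (0, 2)).2) 0 := by
    intro n
    induction n with
    | zero =>
      refine ⟨(by decide : (2 : Fin 3) ≠ 0), ?_⟩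
      simp only [Function.iterate_zero, id_eq]
      rw [cw_zero, inv_one]
      exact Tri.Chain.refl' (Tri.inRange_pos 0 2) 1
    | succ n ih =>
      rw [Function.iterate_succ_apply']
      obtain ⟨ih1, ih2⟩ := ih
      obtain ⟨h1, h2⟩ := turn_chain j s ((turn j)^[n] (0, 2)).1 ((turn j)^[n] (0, 2)).2 ih1
      refine ⟨h1, ?_⟩
      have h3 := ih2.trans h2
      rwa [add_zero] at h3
  obtain ⟨n, hn⟩ := turn_tab j t i hi
  have h1 := (key n.val).2
  rw [hn] at h1
  exact h1

theorem letter_chain (j : Fin 3) (s : ℝ) (k : Fin 4) :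
    ((stri j).real s).Chain (1, 0, ((stri j).real s).pos 0 2)
      (FreeGroup.of k, 0, ((stri j).real s).pos 0 2) (wid j k) := by
  have h1 := corner_chain j s (k.castAdd 4) 2 (by decide)
  have h2 := Tri.Chain.slide (T := (stri j).real s) (cw j (k.castAdd 4) 2)⁻¹ (k.castAdd 4)
    (((stri j).real s).pos (k.castAdd 4) 2) (((stri j).real s).pos (k.castAdd 4) 1)
    (Tri.inRange_pos _ _) (Tri.inRange_pos _ _)
  have h3 := ((corner_chain j s (k.castAdd 4) 1 (by decide)).symm
    (stri_good j s)).mul_left' (FreeGroup.of k)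
  have h4 : cw j (k.castAdd 4) 1 = cw j (k.castAdd 4) 2 * FreeGroup.of k := by
    unfold cw
    rw [upper_tab, ← mul_mk]
    rfl
  have h5 : FreeGroup.of k * (cw j (k.castAdd 4) 1)⁻¹ = (cw j (k.castAdd 4) 2)⁻¹ := by
    rw [h4]; group
  rw [h5, mul_one] at h3
  have h6 := (h1.trans h2).trans h3
  have h7 : 0 + |((stri j).real s).pos (k.castAdd 4) 2 - ((stri j).real s).pos (k.castAdd 4) 1| + 0 =
      wid j k := by
    rw [pos_real j s _ 2 (by decide), pos_real j s _ 1 (by decide), h4, XX_mul, XX_of]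
    have h8 : lft j + XX j (cw j (k.castAdd 4) 2) -
        (lft j + (XX j (cw j (k.castAdd 4) 2) + wid j k)) = - wid j k := by ring
    rw [h8, abs_neg, abs_of_pos (wid_pos j k)]
    ring
  rw [h7] at h6
  exact h6

theorem letter_chain' (j : Fin 3) (s : ℝ) (x : Fin 4 × Bool) :
    ((stri j).real s).Chain (1, 0, ((stri j).real s).pos 0 2)
      (FreeGroup.mk [x], 0, ((stri j).real s).pos 0 2) (wid j x.1) := by
  rcases x with ⟨k, b⟩
  cases b
  · have h1 := ((letter_chain j s k).symm (stri_good j s)).mul_left' (FreeGroup.of k)⁻¹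
    rw [inv_mul_cancel, mul_one] at h1
    exact h1
  · exact letter_chain j s k

theorem word_chain (j : Fin 3) (s : ℝ) (w : List (Fin 4 × Bool)) :
    ((stri j).real s).Chain (1, 0, ((stri j).real s).pos 0 2)
      (FreeGroup.mk w, 0, ((stri j).real s).pos 0 2) (wlen j w) := by
  induction w with
  | nil => exact Tri.Chain.refl' (Tri.inRange_pos 0 2) 1
  | cons x w ih =>
    have h1 := ih.mul_left' (FreeGroup.mk [x])
    rw [mul_one, ← mk_cons] at h1
    rw [wlen_cons']
    exact (letter_chain' j s x).trans h1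

/-- Every leaf can be reached. -/
theorem exists_chain (j : Fin 3) (s : ℝ) (h : G) (t : Fin 8) (q : ℝ)
    (hq : ((stri j).real s).InRange t q) : ∃ c, ((stri j).real s).Chain
      (1, 0, ((stri j).real s).pos 0 2) (h, t, q) c := by
  have h1 := word_chain j s (h * cw j t 1).toWord
  rw [mk_toWord] at h1
  have h2 := (corner_chain j s t 1 (by decide)).mul_left' (h * cw j t 1)
  rw [mul_one, mul_inv_cancel_right] at h2
  have h3 := Tri.Chain.slide (T := (stri j).real s) h t _ q (Tri.inRange_pos t 1) hq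
  exact ⟨_, (h1.trans h2).trans h3⟩

theorem chain_pow {T : Tri} {g h : G} {t : Fin 8} {q r : ℝ} (H : T.Chain (h, t, q) (g * h, t, q) r)
    (hq : T.InRange t q) (n : ℕ) : T.Chain (h, t, q) (g ^ n * h, t, q) (n * r) := by
  induction n with
  | zero => simpa using Tri.Chain.refl' hq h
  | succ n ih =>
    have h1 := H.mul_left' (g ^ n)
    rw [← mul_assoc, ← pow_succ] at h1
    have h2 := ih.trans h1
    have h3 : (n : ℝ) * r + r = ((n + 1 : ℕ) : ℝ) * r := by push_cast; ring
    rwa [h3] at h2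

theorem flatten_replicate_flatten {α : Type*} (n : ℕ) (L : List (List α)) :
    (List.replicate n L).flatten.flatten = (List.replicate n L.flatten).flatten := by
  induction n with
  | zero => rfl
  | succ n ih => rw [List.replicate_succ, List.replicate_succ, List.flatten_cons,
      List.flatten_append, ih, List.flatten_cons]

theorem toWord_pow_of_cycRed {g : G} (hg : CycRed g) (n : ℕ) :
    (g ^ n).toWord = (List.replicate n g.toWord).flatten := by
  have h1 := (hg.flatten_replicate n).isReduced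
  have h2 : g ^ n = FreeGroup.mk (List.replicate n g.toWord).flatten := by
    rw [← FreeGroup.pow_mk, mk_toWord]
  rw [h2, toWord_mk, h1.reduce_eq]

theorem wlen_flatten_replicate (j : Fin 3) (n : ℕ) (w : List (Fin 4 × Bool)) :
    wlen j (List.replicate n w).flatten = n * wlen j w := by
  induction n with
  | zero => simp [wlen]
  | succ n ih => rw [List.replicate_succ, List.flatten_cons, wlen_append', ih]; push_cast; ring

theorem stmt_Coarse : Stmt_Coarse := by
  refine ⟨2, by norm_num, ?_⟩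
  intro j s hs
  refine ⟨?_, ?_⟩
  · intro g
    apply Tri.V_le (h := 1) (t := 0) (q := ((stri j).real s).pos 0 2)
    have h1 := word_chain j s g.toWord
    rw [mk_toWord] at h1
    rw [mul_one]
    exact h1
  · rintro g k hg ⟨L, hL1, hL2, hL3⟩
    apply le_csInf
    · refine ⟨wlen j g.toWord, 1, 0, ((stri j).real s).pos 0 2, ?_⟩
      have h1 := word_chain j s g.toWord
      rw [mk_toWord] at h1
      rw [mul_one]
      exact h1
    rintro r ⟨h, t, q, H⟩
    have hq := (H.inRange (stri_good j s)).1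
    obtain ⟨c, hc⟩ := exists_chain j s h t q hq
    have key : ∀ n : ℕ, (n : ℝ) * (wnorm j g - 2 * k) ≤ n * r + 2 * c := by
      intro n
      have h1 := chain_pow H hq n
      have h2 := (hc.symm (stri_good j s)).mul_left' (g ^ n)
      rw [mul_one] at h2
      have h3 := (hc.trans h1).trans h2
      have h4 := pieces_bound j hs (List.replicate n L).flatten ?_ ?_ h3 1 (g ^ n) ?_ ?_ ?_
      · rw [flatten_replicate_flatten, ← hL3, wlen_flatten_replicate] at h4
        have h5 : ((List.replicate n L).flatten.length : ℝ) = n * L.length := by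
          simp
        rw [h5] at h4
        have h6 : (L.length : ℝ) ≤ k := by exact_mod_cast hL1
        have h7 : (n : ℝ) * L.length ≤ n * k := mul_le_mul_of_nonneg_left h6 (Nat.cast_nonneg n)
        have h8 : wlen j g.toWord = wnorm j g := rfl
        rw [h8] at h4
        linarith
      · intro w hw
        rw [List.mem_flatten] at hw
        obtain ⟨l, hl, hwl⟩ := hw
        rw [List.mem_replicate] at hl
        rw [hl.2] at hwl
        exact hL2 w hwl
      · rw [flatten_replicate_flatten, ← hL3]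
        exact (hg.flatten_replicate n).isReduced
      · right
        change (1 : G) = 1 * cw j 0 2
        rw [cw_zero, mul_one]
      · right
        change g ^ n = g ^ n * cw j 0 2
        rw [cw_zero, mul_one]
      · rw [flatten_replicate_flatten, ← hL3, ← toWord_pow_of_cycRed hg, mk_toWord, one_mul]
    -- the limit
    by_contra hcon
    push Not at hcon
    obtain ⟨n, hn⟩ := exists_nat_gt (2 * c / (wnorm j g - 2 * k - r))
    have h1 : 0 < wnorm j g - 2 * k - r := by linarith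
    rw [div_lt_iff₀ h1] at hn
    have h2 := key n
    nlinarith

end Pool.Agent.CircleShift
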