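import Pool.Agent.Work.MP_0fc146_gt_helper72.VsAdd
import Pool.Agent.Work.MP_0fc146_gt_helper72.BCC

/-!
# Block VNA : near additivity of the intersection numbers of the flat octagon
-/

set_option autoImplicit false

noncomputable section

namespace Pool.Agent.CircleShift

open FreeGroup

theorem VsO_nonneg (S : ℝ) (g : G) : 0 ≤ VsO S g := Tri.Vs_nonneg _ _ _

theorem VsO_inv (S : ℝ) (g : G) : VsO S g⁻¹ = VsO S g := by
  unfold VsO Tri.Vs
  congr 1
  ext r
  constructor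
  · rintro ⟨t, q, t', q', H⟩
    refine ⟨t', q', t, q, ?_⟩
    have h1 := (H.symm (ostri_good S)).mul_left' g
    rwa [mul_inv_cancel, mul_one] at h1
  · rintro ⟨t, q, t', q', H⟩
    refine ⟨t', q', t, q, ?_⟩
    have h1 := (H.symm (ostri_good S)).mul_left' g⁻¹
    rwa [inv_mul_cancel, mul_one] at h1

theorem exists_near_VsO {S : ℝ} (hS : |S| ≤ 1) (g : G) {ε : ℝ} (hε : 0 < ε) :
    ∃ t q t' q' r, r < VsO S g + ε ∧ (ostri.real S).Chain (1, t, q) (g, t', q') r := by
  obtain ⟨r, ⟨t, q, t', q', H⟩, hr⟩ := exists_lt_of_csInf_lt (VsO_set_nonempty hS g)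
    (lt_add_of_pos_right (VsO S g) hε)
  exact ⟨t, q, t', q', r, hr, H⟩

theorem VsO_mul {S : ℝ} (hS : |S| ≤ 1) (g h : G) : VsO S (g * h) ≤ VsO S g + VsO S h + 14 := by
  apply le_of_forall_pos_le_add
  intro ε hε
  obtain ⟨t, q, t', q', r, hr, H⟩ := exists_near_VsO hS g (half_pos hε)
  obtain ⟨t1, q1, t1', q1', r1, hr1, H1⟩ := exists_near_VsO hS h (half_pos hε)
  have H1' := H1.mul_left' g
  rw [mul_one] at H1'
  obtain ⟨r2, hr2, H2⟩ := ostri_inside hS g (H.inRange (ostri_good S)).2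
    (H1.inRange (ostri_good S)).1
  have h3 : VsO S (g * h) ≤ r + r2 + r1 := Tri.Vs_le _ ((H.trans H2).trans H1')
  linarith

theorem VO_set_nonempty {S : ℝ} (hS : |S| ≤ 1) (g : G) :
    {r | ∃ h t q, (ostri.real S).Chain (h, t, q) (g * h, t, q) r}.Nonempty := by
  obtain ⟨r, -, H⟩ := ostri_connected' hS 1 (g * 1) (ostri_inRange0 S 0) (ostri_inRange0 S 0)
  exact ⟨r, _, _, _, H⟩

theorem VO_le_VsO {S : ℝ} (hS : |S| ≤ 1) (g : G) : VO S g ≤ VsO S g + 14 := by
  apply le_of_forall_pos_le_add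
  intro ε hε
  obtain ⟨t, q, t', q', r, hr, H⟩ := exists_near_VsO hS g hε
  obtain ⟨r2, hr2, H2⟩ := ostri_inside hS g (H.inRange (ostri_good S)).2
    (H.inRange (ostri_good S)).1
  have h1 := H.trans H2
  rw [← mul_one g] at h1
  have h3 : VO S g ≤ r + r2 := by
    have := Tri.V_le (ostri.real S) (g := g) (h := 1) (t := t) (q := q) (r := r + r2) (by
      have h4 := H.trans H2
      rw [mul_one]
      exact h4)
    exact this
  linarith

theorem VsO_pow {S : ℝ} (hS : |S| ≤ 1) (g : G) (ε : ℝ) (hε : 0 < ε) :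
    ∃ B, ∀ n : ℕ, VsO S (g ^ n) ≤ n * (VO S g + ε) + B := by
  obtain ⟨r, ⟨h, t, q, H⟩, hr⟩ := exists_lt_of_csInf_lt (VO_set_nonempty hS g)
    (lt_add_of_pos_right (VO S g) hε)
  have hq := (H.inRange (ostri_good S)).1
  obtain ⟨c, -, Hc⟩ := ostri_connected' hS 1 h (ostri_inRange0 S 0) hq
  refine ⟨2 * c, fun n => ?_⟩
  have h1 := chain_pow H hq n
  have h2 := (Hc.symm (ostri_good S)).mul_left' (g ^ n)
  rw [mul_one] at h2
  have h3 : VsO S (g ^ n) ≤ c + n * r + c := Tri.Vs_le _ ((Hc.trans h1).trans h2)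
  have h4 : (n : ℝ) * r ≤ n * (VO S g + ε) := mul_le_mul_of_nonneg_left hr.le (Nat.cast_nonneg n)
  linarith

theorem stmt_VNA : Stmt_VNA := by
  intro α
  obtain ⟨N, hN⟩ := stmt_BCC α
  obtain ⟨M, hM, hMl⟩ := exists_lip α.toMonoidHom
  have hM' : ∀ g, (α g).norm ≤ M * g.norm := hMl
  -- the constant
  refine ⟨14 + 14 * M + (56 + 28 * N), ?_⟩
  intro S hS
  refine ⟨⟨?_, ?_, ?_, ?_, ?_, ?_, ?_⟩, ?_⟩
  · intro g; exact VsO_nonneg S _
  · intro g h
    have h1 := VsO_mul hS (α g) (α h)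
    rw [← _root_.map_mul] at h1
    have h2 : (0 : ℝ) ≤ 14 * M + (56 + 28 * N) := by positivity
    linarith
  · intro g
    change VsO S (α g⁻¹) ≤ _
    rw [_root_.map_inv, VsO_inv]
    have h2 : (0 : ℝ) ≤ 14 + 14 * M + (56 + 28 * N) := by positivity
    linarith
  · intro i
    have h1 := VsO_bound hS (α (FreeGroup.of i))
    have h2 := hM' (FreeGroup.of i)
    rw [FreeGroup.norm_of, mul_one] at h2
    have h3 : ((α (FreeGroup.of i)).norm : ℝ) ≤ M := by exact_mod_cast h2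
    have h4 : (0 : ℝ) ≤ 56 + 28 * N := by positivity
    linarith
  · intro g h
    change VO S (α (h * g * h⁻¹)) = VO S (α g)
    rw [_root_.map_mul, _root_.map_mul, _root_.map_inv]
    exact Tri.V_conj _ _ _
  · intro g
    have h1 := VO_le_VsO hS (α g)
    have h2 : (0 : ℝ) ≤ 14 * M + (56 + 28 * N) := by positivity
    linarith
  · intro g ε hε
    obtain ⟨B, hB⟩ := VsO_pow hS (α g) ε hε
    refine ⟨B, fun n => ?_⟩
    have h1 := hB n
    rw [← _root_.map_pow] at h1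
    exact h1
  · intro g w _ hred
    have hw : FreeGroup.IsReduced w := isRed_sub hred ⟨g.toWord, [], by simp⟩
    have hww : (FreeGroup.mk w : G).toWord = w := by rw [toWord_mk]; exact hw.reduce_eq
    have hnorm : (g * FreeGroup.mk w).norm = g.norm + (FreeGroup.mk w : G).norm := by
      rw [norm_mul_eq_iff, hww]; exact hred
    have hcan := hN g (FreeGroup.mk w) hnorm
    obtain ⟨A, hA1, hA2, hA3⟩ := exists_median (α g) (α (g * FreeGroup.mk w))
    have l1 := sep_dist hA1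
    have l2 := sep_dist hA2
    have l3 := sep_dist hA3
    have l4 : ((α g)⁻¹ * α (g * FreeGroup.mk w)).norm = (α (FreeGroup.mk w)).norm := by
      rw [_root_.map_mul, inv_mul_cancel_left]
    have l5 : ((α g)⁻¹ * A).norm = (A⁻¹ * α g).norm := by
      rw [← FreeGroup.norm_inv_eq]; congr 1; group
    simp only [inv_one, one_mul] at l1 l2
    rw [l4] at l3
    have hR : (A⁻¹ * α g).norm ≤ N := by omega
    have hR' : ((α g)⁻¹ * A).norm ≤ N := by omega
    -- the estimates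
    have e1 := stmt_VsAdd S hS A (A⁻¹ * α (g * FreeGroup.mk w)) (by
      rw [mul_inv_cancel_left]; omega)
    rw [mul_inv_cancel_left] at e1
    have e2 := VsO_mul hS A (A⁻¹ * α g)
    rw [mul_inv_cancel_left] at e2
    have e3 := VsO_mul hS ((α g)⁻¹ * A) (A⁻¹ * α (g * FreeGroup.mk w))
    have e4 : (α g)⁻¹ * A * (A⁻¹ * α (g * FreeGroup.mk w)) = α (FreeGroup.mk w) := by
      rw [_root_.map_mul]; group
    rw [e4] at e3
    have e5 := VsO_bound hS (A⁻¹ * α g)
    have e6 := VsO_bound hS ((α g)⁻¹ * A)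
    have e7 : ((A⁻¹ * α g).norm : ℝ) ≤ N := by exact_mod_cast hR
    have e8 : (((α g)⁻¹ * A).norm : ℝ) ≤ N := by exact_mod_cast hR'
    have e9 : (0 : ℝ) ≤ 14 + 14 * M := by positivity
    change VsO S (α g) + VsO S (α (FreeGroup.mk w)) - _ ≤ VsO S (α (g * FreeGroup.mk w))
    linarith

end Pool.Agent.CircleShift
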