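import Pool.Agent.Work.MP_0fc146_gt_helper72.Coarse

/-!
# Block VsAdd : superadditivity of the based intersection numbers of the octagon
-/

set_option autoImplicit false

noncomputable section

namespace Pool.Agent.CircleShift

open FreeGroup

theorem sep_self {w a : G} (h : Sep w a a) : w = a := by
  rcases h with h | h | h
  · exact h.symm
  · exact h.symm
  · exact absurd rfl h

theorem ostri_lab_norm (S : ℝ) (t : Fin 8) (e : Fin 3) : ((ostri.real S).lab t e).norm ≤ 1 := by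
  have h1 : ∀ t e, (ostri.lab t e).length ≤ 1 := by decide +kernel
  exact norm_mk_le.trans (h1 t e)

/-- Splitting of chains of the octagon. -/
theorem oct_split (S : ℝ) {x y : G × Fin 8 × ℝ} {r : ℝ} (H : (ostri.real S).Chain x y r) (w : G)
    (hw : Sep w x.1 y.1) : ∃ (z : G × Fin 8 × ℝ) (r1 r2 : ℝ), z.1 = w ∧
      (ostri.real S).Chain x z r1 ∧ (ostri.real S).Chain z y r2 ∧ r = r1 + r2 := by
  obtain ⟨z, r1, r2, h1, h2, h3, h4⟩ := chain_split (ostri_good S) (fun h _ v => v = h)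
    (fun h t => ⟨h, rfl⟩) (fun h t a b w ha hb hw => by
      subst ha; subst hb; exact sep_self hw)
    (fun h t e a b w ha hb hw => by
      subst ha; subst hb
      refine sep_of_adj hw ?_
      rw [inv_mul_cancel_left]
      exact ostri_lab_norm S t e) H x.1 y.1 w rfl rfl hw
  exact ⟨z, r1, r2, h1.symm, h2, h3, h4⟩

/-! ## Connectivity of the octagon -/

theorem ostri_pos0 (S : ℝ) (t : Fin 8) : (ostri.real S).pos t 0 = 0 := by
  rw [STri.real_pos]
  have h1 : ∀ t, ostri.pos t 0 = (0, 0, 0) := by decide +kernel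
  rw [h1]
  simp [pval]

theorem ostri_inRange0 (S : ℝ) (t : Fin 8) : (ostri.real S).InRange t 0 :=
  ⟨0, 0, (ostri_pos0 S t).le, (ostri_pos0 S t).ge⟩

theorem ostri_spoke (S : ℝ) (h : G) (t : Fin 8) :
    (ostri.real S).Chain (h, t, 0) (h, t + 1, 0) 0 := by
  have h1 : (ostri.real S).InEdge t 1 0 := by
    unfold Tri.InEdge
    have h2 : (1 : Fin 3) + 2 = 0 := rfl
    rw [h2, ostri_pos0]
    exact Set.right_mem_uIcc
  have h2 := Tri.Chain.cross (T := ostri.real S) h t 1 0 h1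
  have h3 : ∀ t, (ostri.nb t 1) = (t + 1, 2) ∧ ostri.lab t 1 = [] := by decide +kernel
  have h4 : (ostri.real S).lab t 1 = 1 := by
    change (FreeGroup.mk (ostri.lab t 1) : G) = 1
    rw [(h3 t).2, one_eq_mk]
  have h5 : (ostri.real S).nb t 1 = (t + 1, 2) := (h3 t).1
  have h6 : (ostri.real S).shift t 1 = 0 := by
    have h7 := (ostri_good S).iso t 1
    have h8 : (1 : Fin 3) + 2 = 0 := rfl
    rw [h8, h5, ostri_pos0] at h7
    have h9 : (2 : Fin 3) + 1 = 0 := rfl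
    rw [zero_add] at h7
    rw [h7]
    change (ostri.real S).pos (t + 1) (2 + 1) = 0
    rw [h9, ostri_pos0]
  rw [h4, h5, h6, mul_one, add_zero] at h2
  exact h2

theorem ostri_around (S : ℝ) (h : G) (n : ℕ) (t : Fin 8) :
    (ostri.real S).Chain (h, t, 0) (h, (fun x : Fin 8 => x + 1)^[n] t, 0) 0 := by
  induction n with
  | zero =>
    simpa using Tri.Chain.refl' (ostri_inRange0 S t) h
  | succ n ih =>
    have h1 := ih.trans (ostri_spoke S h _)
    rw [add_zero] at h1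
    rw [Function.iterate_succ_apply']
    exact h1

/-- The centers. -/
theorem ostri_center (S : ℝ) (h : G) (t t' : Fin 8) :
    (ostri.real S).Chain (h, t, 0) (h, t', 0) 0 := by
  have h2 : ∀ t t' : Fin 8, ∃ n : Fin 8, (fun x : Fin 8 => x + 1)^[n.val] t = t' := by
    decide +kernel
  obtain ⟨n, hn⟩ := h2 t t'
  have h1 := ostri_around S h n.val t
  rwa [hn] at h1

/-- A bound for the positions. -/
theorem ostri_pos_abs {S : ℝ} (hS : |S| ≤ 1) (t : Fin 8) (i : Fin 3) :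
    |(ostri.real S).pos t i| ≤ 7 := by
  have h1 : ∀ t i, |(ostri.pos t i).1| ≤ 5 ∧ |(ostri.pos t i).2.1| ≤ 3 ∧
      |(ostri.pos t i).2.2| ≤ 1 := by decide +kernel
  obtain ⟨h2, h3, h4⟩ := h1 t i
  rw [STri.real_pos]
  unfold pval
  have h2' : |((ostri.pos t i).1 : ℝ)| ≤ 5 := by exact_mod_cast h2
  have h3' : |((ostri.pos t i).2.1 : ℝ)| ≤ 3 := by exact_mod_cast h3
  have h4' : |((ostri.pos t i).2.2 : ℝ)| ≤ 1 := by exact_mod_cast h4
  have h5 : (0 : ℝ) ≤ √3 := Real.sqrt_nonneg 3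
  have h6 : √3 ≤ 2 := by
    rw [show (2 : ℝ) = √4 by rw [show (4 : ℝ) = 2 ^ 2 by norm_num, Real.sqrt_sq (by norm_num)]]
    exact Real.sqrt_le_sqrt (by norm_num)
  have h7 : |((ostri.pos t i).2.1 : ℝ) * √3| ≤ 6 := by
    rw [abs_mul, abs_of_nonneg h5]
    nlinarith [abs_nonneg ((ostri.pos t i).2.1 : ℝ)]
  have h8 : |((ostri.pos t i).2.2 : ℝ) * S| ≤ 1 := by
    rw [abs_mul]
    nlinarith [abs_nonneg ((ostri.pos t i).2.2 : ℝ), abs_nonneg S]
  rw [abs_le] at *
  constructor <;> linarith [h2'.1, h2'.2, h7.1, h7.2, h8.1, h8.2]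

theorem ostri_range_abs {S : ℝ} (hS : |S| ≤ 1) {t : Fin 8} {q : ℝ}
    (hq : (ostri.real S).InRange t q) : |q| ≤ 7 := by
  obtain ⟨i, j, h1, h2⟩ := hq
  have h3 := abs_le.1 (ostri_pos_abs hS t i)
  have h4 := abs_le.1 (ostri_pos_abs hS t j)
  rw [abs_le]
  constructor <;> linarith [h3.1, h4.2]

/-- Two leaves over the same octagon. -/
theorem ostri_inside {S : ℝ} (hS : |S| ≤ 1) (h : G) {t t' : Fin 8} {q q' : ℝ}
    (hq : (ostri.real S).InRange t q) (hq' : (ostri.real S).InRange t' q') :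
    ∃ r ≤ (14 : ℝ), (ostri.real S).Chain (h, t, q) (h, t', q') r := by
  have h1 := Tri.Chain.slide (T := ostri.real S) h t q 0 hq (ostri_inRange0 S t)
  have h2 := ostri_center S h t t'
  have h3 := Tri.Chain.slide (T := ostri.real S) h t' 0 q' (ostri_inRange0 S t') hq'
  refine ⟨_, ?_, (h1.trans h2).trans h3⟩
  rw [sub_zero, zero_sub, abs_neg, add_zero]
  linarith [ostri_range_abs hS hq, ostri_range_abs hS hq']

/-- Adjacent octagons. -/
theorem ostri_letter (S : ℝ) (x : Fin 4 × Bool) : ∃ t t' q q',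
    (ostri.real S).Chain (1, t, q) (FreeGroup.mk [x], t', q') 0 := by
  have h1 : ∀ x : Fin 4 × Bool, ∃ t, ostri.lab t 0 = [x] := by decide +kernel
  obtain ⟨t, ht⟩ := h1 x
  have h2 : (ostri.real S).InEdge t 0 ((ostri.real S).pos t (0 + 1)) := Set.left_mem_uIcc
  have h3 := Tri.Chain.cross (T := ostri.real S) 1 t 0 _ h2
  have h4 : (ostri.real S).lab t 0 = FreeGroup.mk [x] := by
    change (FreeGroup.mk (ostri.lab t 0) : G) = _
    rw [ht]
  rw [h4, one_mul] at h3
  exact ⟨_, _, _, _, h3⟩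

theorem ostri_connected {S : ℝ} (hS : |S| ≤ 1) (w : List (Fin 4 × Bool)) {t t' : Fin 8} {q q' : ℝ}
    (hq : (ostri.real S).InRange t q) (hq' : (ostri.real S).InRange t' q') :
    ∃ r ≤ 14 + 14 * (w.length : ℝ), (ostri.real S).Chain (1, t, q) (FreeGroup.mk w, t', q') r := by
  induction w generalizing t q with
  | nil =>
    obtain ⟨r, hr, H⟩ := ostri_inside hS 1 hq hq'
    refine ⟨r, by simpa using hr, ?_⟩
    rw [← one_eq_mk]
    exact H
  | cons x w ih =>
    obtain ⟨t1, t2, q1, q2, H1⟩ := ostri_letter S x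
    have h1 := H1.inRange (ostri_good S)
    obtain ⟨r1, hr1, H2⟩ := ostri_inside hS 1 hq h1.1
    obtain ⟨r2, hr2, H3⟩ := ih h1.2
    have H4 := H3.mul_left' (FreeGroup.mk [x])
    rw [mul_one, ← mk_cons] at H4
    refine ⟨r1 + 0 + r2, ?_, (H2.trans H1).trans H4⟩
    rw [List.length_cons]
    push_cast
    linarith

theorem ostri_connected' {S : ℝ} (hS : |S| ≤ 1) (g h : G) {t t' : Fin 8} {q q' : ℝ}
    (hq : (ostri.real S).InRange t q) (hq' : (ostri.real S).InRange t' q') :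
    ∃ r ≤ 14 + 14 * ((g⁻¹ * h).norm : ℝ), (ostri.real S).Chain (g, t, q) (h, t', q') r := by
  obtain ⟨r, hr, H⟩ := ostri_connected hS (g⁻¹ * h).toWord hq hq'
  refine ⟨r, hr, ?_⟩
  have h1 := H.mul_left' g
  rwa [mul_one, mk_toWord, mul_inv_cancel_left] at h1

theorem VsO_set_nonempty {S : ℝ} (hS : |S| ≤ 1) (g : G) :
    {r | ∃ t q t' q', (ostri.real S).Chain (1, t, q) (g, t', q') r}.Nonempty := by
  obtain ⟨r, -, H⟩ := ostri_connected' hS 1 g (ostri_inRange0 S 0) (ostri_inRange0 S 0)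
  exact ⟨r, _, _, _, _, H⟩

theorem VsO_bound {S : ℝ} (hS : |S| ≤ 1) (g : G) : VsO S g ≤ 14 + 14 * (g.norm : ℝ) := by
  obtain ⟨r, hr, H⟩ := ostri_connected' hS 1 g (ostri_inRange0 S 0) (ostri_inRange0 S 0)
  rw [inv_one, one_mul] at hr
  exact (Tri.Vs_le _ H).trans hr

theorem stmt_VsAdd : Stmt_VsAdd := by
  intro S hS g h H
  unfold VsO
  apply le_csInf (VsO_set_nonempty hS (g * h))
  rintro r ⟨t, q, t', q', H1⟩
  obtain ⟨z, r1, r2, hz, H2, H3, hr⟩ := oct_split S H1 g (sep_mul H)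
  obtain ⟨z1, z2, z3⟩ := z
  change z1 = g at hz
  subst hz
  rw [hr]
  apply add_le_add
  · exact Tri.Vs_le _ H2
  · have h2 := H3.mul_left' z1⁻¹
    rw [inv_mul_cancel, inv_mul_cancel_left] at h2
    exact Tri.Vs_le _ h2

end Pool.Agent.CircleShift
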